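import Pool.Agent.V5helper21.PR.Orb
import Pool.Agent.Y504.CO.DicF

/-!
# Generic `C^r` diffeomorphisms: finitely many attractors or a lot of recurrence

Author: helper21, on top of the generic dichotomy of project CO (`Pool/Agent/Y504/CO/DicF.lean`).

`DiffM n N r` is `Diff^r(N)`, `strongTop n N r` its (Whitney) `C^r` topology
(`Pool/Agent/H718R2/G0.lean`). `BaireSet n N r S`: `S` contains a countable intersection of open dense
subsets of `Diff^r(N)` (`Pool/Agent/Y504/CO/KSG.lean`). `Rec f`: the recurrent points
(`Pool/Agent/Y504/CO/Stm5.lean`), `Per f`: the periodic points (`Pool/Agent/TH80/OMS/SymDefs.lean`).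
`IsHyperbolicPer n f p`: `p` is a hyperbolic periodic point (`Pool/Agent/Y504/CO/Rob.lean`).
`omegaLim`, `IsAttractor`, `FiniteAttractors` (finitely many attractors cover the space up to a null
set): `Pool/Agent/H728R2/FA/Defs.lean`.
-/

set_option autoImplicit false

open scoped Manifold ContDiff Topology

universe u

namespace Pool.Agent.Results.MP_3a2b62_an.PeriodicRecurrence

open MeasureTheory Set Pool.Agent.H718R2.G Pool.Agent.TH80.OMS Pool.Agent.Y504.CO
  Pool.Agent.Y504.CO.KSG

open Pool.Agent.H728R2.FA (omegaLim FiniteAttractors)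

/-- Let `N` be a closed manifold and `1 ≤ r ≤ ∞`. For generic `f ∈ Diff^r(N)` (a Baire set of `f`): if
at most countably many recurrent points of `f` are not periodic, then there are finitely many
hyperbolic periodic points `p 0, …, p (m - 1)` such that the `ω`-limit set of every point of `N` is
the orbit of one of them, and `f` has finitely many attractors covering `N` up to a null set, for
every measure on `N` (in particular for the volume of a Riemannian metric). -/
theorem result (n : ℕ) (N : Type u) [TopologicalSpace N] [T2Space N] [CompactSpace N]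
    [ChartedSpace (V n) N] [IsManifold (𝓡 n) ∞ N] (r : ℕ∞) (hr : 1 ≤ r) :
    BaireSet n N r {f | (Rec f \ Per f).Countable →
      (∃ (m : ℕ) (p : Fin m → N), (∀ i, IsHyperbolicPer n f (p i)) ∧
        ∀ x, ∃ i, omegaLim f x = range fun j : ℕ => f^[j] (p i)) ∧
      ∀ (_ : MeasurableSpace N) (μ : Measure N), FiniteAttractors μ f} := by
  refine (DicF.generic_dichotomy n N r hr).mono ?_
  rintro f ⟨-, h⟩ hc
  obtain ⟨⟨hfin, -⟩, hhyp⟩ := h hc
  have := exists_metric n N
  obtain ⟨⟨m, p, hp, hω⟩, hatt⟩ := Pool.Agent.V5helper21.PR.main_top f.toHomeomorph hfin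
    (fun q hq => (hhyp q hq).1)
  exact ⟨⟨m, p, fun i => hhyp _ (hp i), hω⟩, hatt⟩

end Pool.Agent.Results.MP_3a2b62_an.PeriodicRecurrence
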